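import Mathlib
import Pool.Agent.Y64.RR.Stm

set_option autoImplicit false

namespace Pool.Agent.Y35.RR

open Pool.Agent.Y64.RR Finset

lemma ee_add (x y : ℝ) : ee (x + y) = ee x * ee y := by
  unfold ee
  rw [← Complex.exp_add]
  congr 1
  push_cast
  ring

lemma ee_int (n : ℤ) : ee n = 1 := by
  unfold ee
  rw [Complex.exp_eq_one_iff]
  exact ⟨n, by push_cast; ring⟩

lemma norm_ee (x : ℝ) : ‖ee x‖ = 1 := by
  unfold ee
  rw [show (2 * Real.pi * x * Complex.I : ℂ) = ((2 * Real.pi * x : ℝ) : ℂ) * Complex.I by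
    push_cast; ring]
  exact Complex.norm_exp_ofReal_mul_I _

/-- The inverse residue is badly approximable as well. -/
lemma bad_inv {E : ℝ} {m : ℕ} {c cb k0 : ℤ} (hE : 1 ≤ E) (hm : 1 ≤ m)
    (h : c * cb = 1 + m * k0) (hb : Bad E m (c / m)) : Bad E m (cb / m) := by
  intro b hb1 hbm a
  have hm0 : (0 : ℝ) < m := by exact_mod_cast hm
  have hb0 : (0 : ℝ) < b := by exact_mod_cast hb1
  have hb1' : (1 : ℝ) ≤ b := by exact_mod_cast hb1
  set L : ℤ := b * cb - a * m with hL
  have e1 : (b : ℝ) * (cb / m) - a = L / m := by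
    rw [hL]; push_cast; field_simp
  rw [e1, abs_div, abs_of_pos hm0]
  have hEb : 0 < E * b := by positivity
  by_cases hbig : (m : ℤ) ≤ |L|
  · have : (m : ℝ) ≤ |(L : ℝ)| := by
      rw [← Int.cast_abs]; exact_mod_cast hbig
    have h1 : (1 : ℝ) ≤ |(L : ℝ)| / m := by rwa [le_div_iff₀ hm0, one_mul]
    refine le_trans ?_ h1
    rw [div_le_one hEb]
    nlinarith
  · push Not at hbig
    have hLc : L * c = b + m * (b * k0 - a * c) := by
      rw [hL]; linear_combination (b : ℤ) * h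
    have hL0 : L ≠ 0 := by
      intro h0
      rw [h0, zero_mul] at hLc
      have hd : (m : ℤ) ∣ b := ⟨-(b * k0 - a * c), by linarith⟩
      have := Int.le_of_dvd (by exact_mod_cast hb1) hd
      omega
    have hn1 : 1 ≤ L.natAbs := Int.natAbs_pos.mpr hL0
    have hnm : L.natAbs < m := by
      have : (L.natAbs : ℤ) < m := by rw [Int.natCast_natAbs]; exact hbig
      exact_mod_cast this
    have hcast : (L.natAbs : ℝ) = |(L : ℝ)| := by
      rw [← Int.cast_abs, ← Int.natCast_natAbs]; simp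
    have key : 1 / (E * |(L : ℝ)|) ≤ b / m := by
      have hLcR : (L : ℝ) * c = b + m * (b * k0 - a * c) := by exact_mod_cast hLc
      rcases le_total 0 L with hs | hs
      · have hz := hb L.natAbs hn1 hnm (b * k0 - a * c)
        rw [hcast, abs_of_nonneg (by exact_mod_cast hs : (0 : ℝ) ≤ L)] at hz
        rw [abs_of_nonneg (by exact_mod_cast hs : (0 : ℝ) ≤ L)]
        refine hz.trans (le_of_eq ?_)
        rw [show (L : ℝ) * (c / m) - ((b * k0 - a * c : ℤ) : ℝ) = b / m by
          push_cast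
          field_simp
          linear_combination hLcR]
        exact abs_of_pos (by positivity)
      · have hz := hb L.natAbs hn1 hnm (-(b * k0 - a * c))
        rw [hcast, abs_of_nonpos (by exact_mod_cast hs : (L : ℝ) ≤ 0)] at hz
        rw [abs_of_nonpos (by exact_mod_cast hs : (L : ℝ) ≤ 0)]
        refine hz.trans (le_of_eq ?_)
        rw [show -(L : ℝ) * (c / m) - ((-(b * k0 - a * c) : ℤ) : ℝ) = -(b / m) by
          push_cast
          field_simp
          linear_combination -hLcR, abs_neg]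
        exact abs_of_pos (by positivity)
    have hLpos : 0 < |(L : ℝ)| := abs_pos.mpr (by exact_mod_cast hL0)
    rw [div_le_div_iff₀ (by positivity) hm0] at key ⊢
    linarith

/-- The fractional part. -/
lemma fract_eq {m : ℕ} {cb i r0 be b' l : ℤ} (hm : 1 ≤ m)
    (h : (10 * i + r0) * cb = l + m * (10 * b' + be)) (hl : 0 ≤ l) (hlm : l < m)
    (hbe : 0 ≤ be) (hbe' : be < 10) :
    Int.fract ((i : ℝ) * (cb / m) + r0 * (cb / m) / 10) = (be + l / m) / 10 := by
  have hm0 : (0 : ℝ) < m := by exact_mod_cast hm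
  have hR : (10 * (i : ℝ) + r0) * cb = l + m * (10 * b' + be) := by exact_mod_cast h
  have hl' : (0 : ℝ) ≤ l := by exact_mod_cast hl
  have hlm' : (l : ℝ) / m < 1 := by
    rw [div_lt_one hm0]; exact_mod_cast hlm
  have hbe1 : (0 : ℝ) ≤ be := by exact_mod_cast hbe
  have hbe2 : (be : ℝ) ≤ 9 := by exact_mod_cast (by omega : be ≤ 9)
  rw [Int.fract_eq_iff]
  refine ⟨by positivity, by linarith, b', ?_⟩
  field_simp
  linear_combination hR

/-- The phase. -/
lemma phase_eq {m : ℕ} {c cb k0 i r0 be b' κ J : ℤ} {l : ℕ} (hm : 1 ≤ m)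
    (h : c * cb = 1 + m * k0) (hJ : JJ c m l = J) (hJ' : J = 10 * i + r0)
    (hl : J * cb = l + m * (10 * b' + be)) :
    ∃ z : ℤ, ph c m κ l = -10 * (cb / m : ℝ) * (i : ℝ) ^ 2 +
      ((2 * κ - 2 * (r0 * cb - be * m)) / m : ℝ) * i +
      (-(c * ((r0 * cb - be * m : ℝ)) ^ 2) / (10 * m) + κ * c * (r0 * cb - be * m) / (5 * m) +
        c * (r0 * cb - be * m) / 10 + (c + 1) * (r0 * cb - be * m) / 2 +
        (r0 * k0 - be * c) / 2) + z := by
  have hm0 : (m : ℝ) ≠ 0 := by
    have : (0 : ℝ) < m := by exact_mod_cast hm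
    exact this.ne'
  refine ⟨-10 * (i ^ 2 * cb * k0 - 2 * i * c * cb * b' + b' ^ 2 * m * c)
    - 2 * (r0 * cb - be * m) * (i * k0 - c * b') + 2 * κ * (i * k0 - c * b')
    + c * (i * cb - b' * m) + 5 * (c + 1) * (i * cb - b' * m) + 5 * i * k0 - 5 * b' * c, ?_⟩
  have hR : (c : ℝ) * cb = 1 + m * k0 := by exact_mod_cast h
  have hlR : (l : ℝ) = (10 * i + r0) * cb - m * (10 * b' + be) := by
    have : (l : ℤ) = (10 * i + r0) * cb - m * (10 * b' + be) := by
      rw [← hJ']; linarith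
    exact_mod_cast this
  unfold ph
  rw [hJ, hJ', hlR]
  push_cast
  have e : (k0 : ℝ) = (c * cb - 1) / m := by
    rw [hR]; field_simp; ring
  rw [e]
  field_simp
  ring

end Pool.Agent.Y35.RR
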