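import Mathlib
import Pool.Agent.Y64.RR.Stm
import Pool.Agent.Y35.RR.Phase

set_option autoImplicit false

namespace Pool.Agent.Y35.RR

open Pool.Agent.Y64.RR Finset

lemma JJ_dvd (c : ℤ) (m l : ℕ) : (m : ℤ) ∣ JJ c m l - l * c := Int.dvd_bmod_sub_self

lemma JJ_eq {c : ℤ} {m l : ℕ} (hm : 1 ≤ m) {J : ℤ} (h1 : -(m : ℤ) ≤ 2 * J) (h2 : 2 * J < m)
    (h3 : (m : ℤ) ∣ J - l * c) : JJ c m l = J := by
  unfold JJ
  rw [Int.bmod_eq_iff (by omega)]
  refine ⟨by omega, by omega, h3⟩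

/-- Structure of `J cb`. -/
lemma JJ_mul {c cb k0 : ℤ} {m l : ℕ} (hl : l < m) (h : c * cb = 1 + m * k0) :
    (JJ c m l * cb) % m = l := by
  obtain ⟨q, hq⟩ := JJ_dvd c m l
  have e : JJ c m l * cb = l + m * (l * k0 + q * cb) := by
    linear_combination cb * hq + (l : ℤ) * h
  rw [e, Int.add_mul_emod_self_left]
  exact Int.emod_eq_of_lt (by positivity) (by exact_mod_cast hl)

/-- One class. -/
lemma fiber {E C : ℝ} {m : ℕ} {c cb k0 : ℤ} (hE : 1 ≤ E) (hm : 1 ≤ m) (hC : 0 < C)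
    (h : c * cb = 1 + m * k0) (hb : Bad E m (cb / m))
    (H : ∀ (N₀ : ℤ) (N : ℕ), 1 ≤ N → N ≤ m → ∀ β γ u v : ℝ, 0 ≤ u → u ≤ v → v ≤ 1 →
      ‖∑ i ∈ (Finset.Ico N₀ (N₀ + N)).filter (fun i : ℤ => u ≤ Int.fract (i * (cb / m : ℝ) + β) ∧
        Int.fract (i * (cb / m : ℝ) + β) < v), ee (-10 * (cb / m : ℝ) * (i : ℝ) ^ 2 + γ * i)‖ ≤
          C * √E * (N : ℝ) ^ (15 / 16 : ℝ))
    (r κ J₀ : ℤ) (X l' : ℕ) (hX : 1 ≤ X) (h1 : -(m : ℤ) ≤ 2 * (J₀ + 1)) (h2 : 2 * (J₀ + X) < m)
    (r0 be : ℤ) (hr0 : 0 ≤ r0) (hr0' : r0 < 10) (hbe : 0 ≤ be) (hbe' : be < 10) :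
    ‖∑ l ∈ ((range m).filter (fun l : ℕ => l ≤ l' ∧ J₀ < JJ c m l ∧ JJ c m l ≤ J₀ + X ∧
      (l : ℤ) ≡ r [ZMOD 5])).filter (fun l => (JJ c m l % 10, (JJ c m l * cb / m) % 10) = (r0, be)),
        ee (ph c m κ l)‖ ≤ C * √E * (X : ℝ) ^ (15 / 16 : ℝ) := by
  have hm0 : (0 : ℝ) < m := by exact_mod_cast hm
  have hmz : (0 : ℤ) < m := by exact_mod_cast hm
  set S := ((range m).filter (fun l : ℕ => l ≤ l' ∧ J₀ < JJ c m l ∧ JJ c m l ≤ J₀ + X ∧
      (l : ℤ) ≡ r [ZMOD 5])).filter (fun l => (JJ c m l % 10, (JJ c m l * cb / m) % 10) = (r0, be))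
    with hS
  have hpos : 0 ≤ C * √E * (X : ℝ) ^ (15 / 16 : ℝ) := by positivity
  -- what membership gives
  have mem : ∀ l ∈ S, l < m ∧ l ≤ l' ∧ J₀ < JJ c m l ∧ JJ c m l ≤ J₀ + X ∧ (l : ℤ) ≡ r [ZMOD 5] ∧
      JJ c m l = 10 * (JJ c m l / 10) + r0 ∧
      JJ c m l * cb = l + m * (10 * ((JJ c m l * cb / m) / 10) + be) := by
    intro l hl
    rw [hS] at hl
    simp only [mem_filter, mem_range, Prod.mk.injEq] at hl
    obtain ⟨⟨a1, a2, a3, a4, a5⟩, a6, a7⟩ := hl
    refine ⟨a1, a2, a3, a4, a5, by omega, ?_⟩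
    have e1 := Int.emod_add_mul_ediv (JJ c m l * cb) m
    rw [JJ_mul a1 h] at e1
    have e2 : 10 * ((JJ c m l * cb / m) / 10) + be = JJ c m l * cb / m := by omega
    rw [e2]
    exact e1.symm
  set N₀ : ℤ := (J₀ - r0) / 10 + 1 with hN₀
  set N : ℕ := ((J₀ + X - r0) / 10 - (J₀ - r0) / 10).toNat with hN
  have hNz : (N : ℤ) = (J₀ + X - r0) / 10 - (J₀ - r0) / 10 := by
    rw [hN, Int.toNat_of_nonneg]; omega
  have hNX : N ≤ X := by omega
  have hXm : X ≤ m := by omega
  by_cases hs : ((r0 * cb - be * m : ℤ)) ≡ r [ZMOD 5]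
  swap
  · have hemp : S = ∅ := by
      rw [Finset.eq_empty_iff_forall_notMem]
      intro l hl
      obtain ⟨b1, b2, b3, b4, b5, b6, b7⟩ := mem l hl
      apply hs
      refine Int.ModEq.trans ?_ b5
      apply (Int.modEq_iff_dvd).mpr
      refine ⟨2 * ((JJ c m l / 10) * cb - ((JJ c m l * cb / m) / 10) * m), ?_⟩
      linear_combination cb * b6 - b7
    rw [hemp]; simpa using hpos
  by_cases hN0 : N = 0
  · have hemp : S = ∅ := by
      rw [Finset.eq_empty_iff_forall_notMem]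
      intro l hl
      obtain ⟨b1, b2, b3, b4, b5, b6, b7⟩ := mem l hl
      omega
    rw [hemp]; simpa using hpos
  -- the main case
  set u : ℝ := be / 10 with hu
  set v : ℝ := min ((be + 1) / 10) ((be + (l' + 1) / m) / 10) with hv
  have hbeR : (0 : ℝ) ≤ be := by exact_mod_cast hbe
  have hbeR' : (be : ℝ) ≤ 9 := by exact_mod_cast (by omega : be ≤ 9)
  have Hm := H N₀ N (by omega) (by omega) (r0 * (cb / m) / 10)
    ((2 * κ - 2 * (r0 * cb - be * m)) / m) u v (by positivity)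
    (by
      rw [hu, hv]
      apply le_min
      · linarith
      · have : (0 : ℝ) ≤ (l' + 1) / m := by positivity
        linarith)
    (by
      rw [hv]
      refine (min_le_left _ _).trans ?_
      linarith)
  have hsum : ∑ l ∈ S, ee (ph c m κ l) =
      ee (-(c * ((r0 * cb - be * m : ℝ)) ^ 2) / (10 * m) + κ * c * (r0 * cb - be * m) / (5 * m) +
        c * (r0 * cb - be * m) / 10 + (c + 1) * (r0 * cb - be * m) / 2 +
        (r0 * k0 - be * c) / 2) *
      ∑ i ∈ (Finset.Ico N₀ (N₀ + N)).filter (fun i : ℤ =>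
        u ≤ Int.fract (i * (cb / m : ℝ) + r0 * (cb / m) / 10) ∧
        Int.fract (i * (cb / m : ℝ) + r0 * (cb / m) / 10) < v),
        ee (-10 * (cb / m : ℝ) * (i : ℝ) ^ 2 + ((2 * κ - 2 * (r0 * cb - be * m)) / m : ℝ) * i) := by
    rw [Finset.mul_sum]
    refine Finset.sum_nbij' (fun l => JJ c m l / 10) (fun i => (((10 * i + r0) * cb) % m).toNat)
      ?_ ?_ ?_ ?_ ?_
    · intro l hl
      obtain ⟨b1, b2, b3, b4, b5, b6, b7⟩ := mem l hl
      have hf := fract_eq (i := JJ c m l / 10) (r0 := r0) (be := be)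
        (b' := (JJ c m l * cb / m) / 10) (l := (l : ℤ)) (cb := cb) hm (by rw [← b6]; exact b7)
        (by positivity) (by exact_mod_cast b1) hbe hbe'
      simp only [mem_filter, mem_Ico]
      refine ⟨⟨by omega, by omega⟩, ?_⟩
      rw [hf, hu, hv]
      have hlm : ((l : ℤ) : ℝ) / m < 1 := by
        rw [div_lt_one hm0]; exact_mod_cast b1
      have hl0 : 0 ≤ ((l : ℤ) : ℝ) / m := by positivity
      refine ⟨by linarith, lt_min (by linarith) ?_⟩
      have : ((l : ℤ) : ℝ) / m < (l' + 1) / m := by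
        rw [div_lt_div_iff_of_pos_right hm0]
        have : (l : ℝ) ≤ l' := by exact_mod_cast b2
        push_cast
        linarith
      linarith
    · intro i hi
      simp only [mem_filter, mem_Ico] at hi
      obtain ⟨⟨i1, i2⟩, i3, i4⟩ := hi
      -- set up
      set J : ℤ := 10 * i + r0 with hJ
      have hmod0 : 0 ≤ (J * cb) % m := Int.emod_nonneg _ hmz.ne'
      have hmodm : (J * cb) % m < m := Int.emod_lt_of_pos _ hmz
      set l : ℕ := ((J * cb) % m).toNat with hl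
      have hlz : (l : ℤ) = (J * cb) % m := by rw [hl, Int.toNat_of_nonneg hmod0]
      have hlm : l < m := by
        have : (l : ℤ) < m := by rw [hlz]; exact hmodm
        exact_mod_cast this
      have e1 := Int.emod_add_mul_ediv (J * cb) m
      rw [← hlz] at e1
      have hJJ : JJ c m l = J := by
        apply JJ_eq hm (by omega) (by omega)
        refine ⟨c * (J * cb / m) - J * k0, ?_⟩
        linear_combination -c * e1 - J * h
      -- the fractional part
      set B : ℤ := J * cb / m with hB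
      have e2 : B = 10 * (B / 10) + B % 10 := by omega
      have hf := fract_eq (i := i) (r0 := r0) (be := B % 10)
        (b' := B / 10) (l := (l : ℤ)) (cb := cb) hm (by rw [← e2]; exact e1.symm)
        (by positivity) (by exact_mod_cast hlm) (by omega) (by omega)
      rw [hf] at i3 i4
      rw [hu] at i3
      rw [hv, lt_min_iff] at i4
      have hlm1 : ((l : ℤ) : ℝ) / m < 1 := by
        rw [div_lt_one hm0]; exact_mod_cast hlm
      have hl0 : 0 ≤ ((l : ℤ) : ℝ) / m := by positivity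
      have hBbe : B % 10 = be := by
        have j1 : be < B % 10 + 1 := by
          have : (be : ℝ) < ((B % 10 : ℤ) : ℝ) + 1 := by linarith
          exact_mod_cast this
        have j2 : B % 10 < be + 1 := by
          have : ((B % 10 : ℤ) : ℝ) < be + 1 := by linarith [i4.1]
          exact_mod_cast this
        omega
      have hll' : l ≤ l' := by
        have j3 : ((l : ℤ) : ℝ) / m < (l' + 1) / m := by
          have := i4.2
          rw [hBbe] at this
          linarith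
        rw [div_lt_div_iff_of_pos_right hm0] at j3
        have : (l : ℤ) < l' + 1 := by exact_mod_cast j3
        omega
      rw [hS]
      simp only [mem_filter, mem_range, Prod.mk.injEq]
      rw [hJJ]
      refine ⟨⟨hlm, hll', by omega, by omega, ?_⟩, by omega, hBbe⟩
      refine Int.ModEq.trans ?_ hs
      apply (Int.modEq_iff_dvd).mpr
      refine ⟨-(2 * (i * cb - (B / 10) * m)), ?_⟩
      rw [hBbe] at e2
      linear_combination -e1 + (m : ℤ) * e2
    · intro l hl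
      obtain ⟨b1, b2, b3, b4, b5, b6, b7⟩ := mem l hl
      show ((10 * (JJ c m l / 10) + r0) * cb % m).toNat = l
      rw [← b6, JJ_mul b1 h]
      simp
    · intro i hi
      simp only [mem_filter, mem_Ico] at hi
      obtain ⟨⟨i1, i2⟩, i3, i4⟩ := hi
      set J : ℤ := 10 * i + r0 with hJ
      have hmod0 : 0 ≤ (J * cb) % m := Int.emod_nonneg _ hmz.ne'
      have hmodm : (J * cb) % m < m := Int.emod_lt_of_pos _ hmz
      show JJ c m ((J * cb) % m).toNat / 10 = i
      set l : ℕ := ((J * cb) % m).toNat with hl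
      have hlz : (l : ℤ) = (J * cb) % m := by rw [hl, Int.toNat_of_nonneg hmod0]
      have e1 := Int.emod_add_mul_ediv (J * cb) m
      rw [← hlz] at e1
      have hJJ : JJ c m l = J := by
        apply JJ_eq hm (by omega) (by omega)
        refine ⟨c * (J * cb / m) - J * k0, ?_⟩
        linear_combination -c * e1 - J * h
      rw [hJJ]
      omega
    · intro l hl
      obtain ⟨b1, b2, b3, b4, b5, b6, b7⟩ := mem l hl
      obtain ⟨z, hz⟩ := phase_eq (κ := κ) hm h rfl b6 b7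
      rw [hz, ee_add, ee_int, mul_one, ee_add, mul_comm]
  rw [hsum, norm_mul, norm_ee, one_mul]
  refine Hm.trans ?_
  have hNX' : (N : ℝ) ≤ X := by exact_mod_cast hNX
  have := Real.rpow_le_rpow (by positivity : (0 : ℝ) ≤ N) hNX' (by norm_num : (0 : ℝ) ≤ 15 / 16)
  gcongr

/-- The rough phase along residue classes. -/
theorem expL_of_exp : StExp → StExpL := by
  rintro ⟨C, hC, H⟩
  refine ⟨100 * C, by positivity, ?_⟩
  intro E m c hE hm hcop hbad r κ J₀ X l' hX h1 h2 _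
  obtain ⟨a, b, hab⟩ := hcop
  have h : c * a = 1 + m * (-b) := by linear_combination hab
  have hb := bad_inv hE hm h hbad
  have hmaps : ∀ l ∈ ((range m).filter (fun l : ℕ => l ≤ l' ∧ J₀ < JJ c m l ∧ JJ c m l ≤ J₀ + X ∧
      (l : ℤ) ≡ r [ZMOD 5])), (JJ c m l % 10, (JJ c m l * a / m) % 10) ∈
        (Finset.Ico (0 : ℤ) 10) ×ˢ (Finset.Ico (0 : ℤ) 10) := by
    intro l _
    simp only [mem_product, mem_Ico]
    refine ⟨⟨by omega, by omega⟩, by omega, by omega⟩
  rw [← Finset.sum_fiberwise_of_maps_to hmaps]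
  refine (norm_sum_le _ _).trans ?_
  have fib : ∀ p ∈ (Finset.Ico (0 : ℤ) 10) ×ˢ (Finset.Ico (0 : ℤ) 10),
      ‖∑ l ∈ ((range m).filter (fun l : ℕ => l ≤ l' ∧ J₀ < JJ c m l ∧ JJ c m l ≤ J₀ + X ∧
      (l : ℤ) ≡ r [ZMOD 5])) with (JJ c m l % 10, (JJ c m l * a / m) % 10) = p,
        ee (ph c m κ l)‖ ≤ C * √E * (X : ℝ) ^ (15 / 16 : ℝ) := by
    rintro ⟨r0, be⟩ hp
    simp only [mem_product, mem_Ico] at hp
    obtain ⟨⟨p1, p2⟩, p3, p4⟩ := hp
    exact fiber hE hm hC h hb (H E m _ hE hb) r κ J₀ X l' hX h1 h2 r0 be p1 p2 p3 p4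
  refine (Finset.sum_le_card_nsmul _ _ _ fib).trans (le_of_eq ?_)
  simp
  ring

end Pool.Agent.Y35.RR
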